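import Pool.Agent.TH346.CG.Defs

set_option autoImplicit false

open Finset
open scoped Pointwise

namespace Pool.Agent.TH318.CG

open Pool.Agent.TH346.CG

theorem cover {Γ U : Type} [DecidableEq Γ] [DecidableEq U] (X : Finset U)
    (Z : Finset Γ) (R : Γ → Finset U) (q : ℕ) (hR : ∀ z ∈ Z, R z ⊆ X)
    (hq : ∀ z ∈ Z, X.card ≤ q * (R z).card) (hX : X.Nonempty) :
    ∃ Y ⊆ Z, Y.card ≤ q ∧ ∀ z ∈ Z, ∃ y ∈ Y, ∃ u, u ∈ R z ∧ u ∈ R y := by
  classical
  obtain ⟨Y, hY, hmax⟩ := Finset.exists_max_image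
    (Z.powerset.filter fun Y : Finset Γ => (Y : Set Γ).PairwiseDisjoint R) Finset.card
    ⟨∅, by simp⟩
  rw [mem_filter, mem_powerset] at hY
  obtain ⟨hYZ, hdis⟩ := hY
  have hXpos : 0 < X.card := hX.card_pos
  refine ⟨Y, hYZ, ?_, ?_⟩
  · have h1 : (Y.biUnion R).card = ∑ y ∈ Y, (R y).card := card_biUnion hdis
    have h2 : (Y.biUnion R).card ≤ X.card :=
      card_le_card (biUnion_subset.2 fun y hy => hR y (hYZ hy))
    have h3 : Y.card * X.card ≤ q * X.card := by
      calc Y.card * X.card = ∑ _y ∈ Y, X.card := by rw [sum_const, smul_eq_mul]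
        _ ≤ ∑ y ∈ Y, q * (R y).card := sum_le_sum fun y hy => hq y (hYZ hy)
        _ = q * ∑ y ∈ Y, (R y).card := by rw [mul_sum]
        _ ≤ q * X.card := Nat.mul_le_mul_left q (h1 ▸ h2)
    exact Nat.le_of_mul_le_mul_right h3 hXpos
  · intro z hz
    have hzne : (R z).Nonempty := by
      rw [← card_pos]
      by_contra hcon
      have h0 : (R z).card = 0 := by omega
      have := hq z hz
      rw [h0, mul_zero] at this
      omega
    by_cases hzY : z ∈ Y
    · obtain ⟨u, hu⟩ := hzne
      exact ⟨z, hzY, u, hu, hu⟩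
    · by_contra hcon
      push Not at hcon
      have hins : insert z Y ∈ Z.powerset.filter fun Y : Finset Γ => (Y : Set Γ).PairwiseDisjoint R := by
        rw [mem_filter, mem_powerset]
        refine ⟨insert_subset hz hYZ, ?_⟩
        rw [coe_insert]
        refine hdis.insert fun y hy _ => ?_
        rw [disjoint_left]
        intro u hu hu'
        exact hcon y hy u hu hu'
      have h4 := hmax _ hins
      rw [card_insert_of_notMem hzY] at h4
      omega

end Pool.Agent.TH318.CG
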